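import Pool.Agent.Q293.CP.Main

/-!
# No constant factor for the cop pebbling number of Cartesian products

`MP_d8b757_co`, Q1: is there a constant `a` with `π^c(G □ H) ≤ a π^c(G) π^c(H)` for all graphs? No,
not even for `H = G`: for every real `a` there is a finite connected graph `G` with
`π^c(G □ G) > a π^c(G) ^ 2`.

The graph: an apex over the strong product of a tree (many children at every vertex) with a path
of `s` vertices; the apex is joined to all vertices `(w, s - 1)`. With `2 ^ s` cops at the apex the
cops win on `G`: they come down one phase per turn and always above the robber. On `G □ G` the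
robber stays at phase `0` in both coordinates and in every turn goes to a new child in the first or
in the second coordinate; he chooses the coordinate such that a potential does not increase. The
potential of a cop which is straight above the robber in both coordinates, at the phases `i` and
`j`, is `2 ^ (-i-j)` times `m ^ (-1/8) * exp (-(i-j)^2 / (8m))`, `m = i + j + 1`, a superharmonic
function for the coin of the robber. So at least `c s ^ (1/8) 4 ^ s` cops are needed.

The definitions (`IsTurn`, `after`, `CopsWin`, `copNumber`) are in `Pool/Agent/Q293/CP/Game.lean`.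
-/

set_option autoImplicit false

namespace Pool.Agent.Results.MP_d8b757_co.NoConstant

open Pool.Agent.Q293.CP SimpleGraph

/-- For every real number `a` there is a finite connected graph `G` whose Cartesian square has cop
pebbling number greater than `a` times the square of the cop pebbling number of `G`. -/
theorem result (a : ℝ) : ∃ (V : Type) (_ : Fintype V) (G : SimpleGraph V), G.Connected ∧
    a * ((copNumber G : ℝ) * (copNumber G : ℝ)) < (copNumber (G □ G) : ℝ) := by
  obtain ⟨V, hV, G, s, hc, h1, h2⟩ := main (max a 0)
  refine ⟨V, hV, G, hc, lt_of_le_of_lt ?_ h2⟩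
  have h3 : (copNumber G : ℝ) ≤ 2 ^ s := by exact_mod_cast h1
  have h4 : (0 : ℝ) ≤ (copNumber G : ℝ) := Nat.cast_nonneg _
  have h5 : (copNumber G : ℝ) * (copNumber G : ℝ) ≤ 4 ^ s := by
    calc (copNumber G : ℝ) * (copNumber G : ℝ) ≤ 2 ^ s * 2 ^ s :=
          mul_le_mul h3 h3 h4 (by positivity)
      _ = 4 ^ s := by rw [← mul_pow]; norm_num
  calc a * ((copNumber G : ℝ) * (copNumber G : ℝ))
      ≤ max a 0 * ((copNumber G : ℝ) * (copNumber G : ℝ)) :=
        mul_le_mul_of_nonneg_right (le_max_left _ _) (mul_nonneg h4 h4)
    _ ≤ max a 0 * 4 ^ s := mul_le_mul_of_nonneg_left h5 (le_max_right _ _)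

end Pool.Agent.Results.MP_d8b757_co.NoConstant
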